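import Pool.Agent.H739SA.Main

/-!
# Solvable varieties of alternative algebras in characteristic three

Over every field of characteristic three there is a variety of (commutative) alternative
algebras, solvable of index three, that is not defined by any finite set of identities.
-/

namespace Pool.Agent.Results.MP_e7684b_al.SolvableAltNotFB

open Pool.Agent.H739SJ Pool.Agent.H739SA

universe u

theorem result (F : Type u) [Field F] [CharP F 3] :
    ∃ S : Set (FreeNonUnitalNonAssocAlgebra F ℕ),
      (∀ (B : Type u) [NonUnitalNonAssocRing B] [Module F B] [IsScalarTower F B B]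
        [SMulCommClass F B B], InVariety F S B →
          (∀ x y : B, x * y = y * x) ∧ IsAlternativeAlgebra B ∧
            Pool.Agent.H739SJ.derivedSeries F B 3 = ⊥) ∧
      ∀ T : Set (FreeNonUnitalNonAssocAlgebra F ℕ), T.Finite →
        ¬ ∀ (B : Type u) [NonUnitalNonAssocRing B] [Module F B] [IsScalarTower F B B]
          [SMulCommClass F B B], InVariety F S B ↔ InVariety F T B :=
  main F

end Pool.Agent.Results.MP_e7684b_al.SolvableAltNotFB
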